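import Mathlib
import Pool.Agent.U465.BK.Blk

/-!
# Irreducibility for a positive proportion of the primes, from the degrees of factors at several primes

Let `π` be an algebraic cuspidal automorphic representation of `GL_n` over a number field `K` (for
example `ℚ`) whose Hecke polynomials have coefficients in the number field `E`, with the attached
representations `V_λ` of the Galois group of `K` over the completions `E_λ`.  For a prime number `ℓ` let
`V_ℓ` be the sum of the `V_λ`, for all `λ` above `ℓ`: it is a representation over `ℚ_ℓ` of dimension
`N = n [E : ℚ]` with an action of `E` (by `ε ℓ`), and its Frobenius polynomials `P v` are the norms of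
the Hecke polynomials.  For an embedding `φ` of `E` in the algebraic closure of `ℚ_ℓ`, corresponding
to a place `λ`, the part `partAt (ε ℓ) φ` of `V_ℓ` is the representation `V_λ` over the algebraic closure
of `ℚ_ℓ`, of dimension `n`.  As in the other files of this folder we assume purity and integrality of
the Frobenius eigenvalues (known if `π` is regular and essentially self-dual, and for motives).
No self-duality, no regularity and nothing at the places above `ℓ` is used.  Let `r` be the maximal
number of multiplicatively independent eigenvalues of a Frobenius element on `V_ℓ`.

The *relations* between numbers `z_1, ..., z_N` are the vectors `n` of integers such that the product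
of the `z_i ^ {n_i}` is a root of unity.  Let `R` be a set of vectors of rank at most `N - r`, and let
`A` be the group of permutations of `{1, ..., N}` which preserve `R`.  An element `γ` of the image of
the Galois group at a prime `p` has the *type* `a` (with respect to `p` and to an automorphism `τ` of
the algebraic closure of `ℚ_p`) if the eigenvalues of `ρ_p(γ)` on `V_p` can be written as
`z_1, ..., z_N` with relations `R` and `τ (z_i) = z_{a(i)}` (no quotient of two of them being a root of
unity).  In the same way we define the types of the elements of the Lie algebra of the image.

**Theorem.**  Let `T j` (for `j` in any nonempty index set) be sets of types which occur at primes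
`p j` for automorphisms `τ j`, all of them containing the type `1`.  Suppose that every subgroup `H` of `A`
which contains conjugates (in `A`) of all these types is *transitive on its blocks*: if the classes of
a partition of the indices in `[E : ℚ]` classes of `n` elements are stable under `H`, then `H` is
transitive on each class.  This is satisfied if for all `k` with `0 < k < n` one of the types, `a`, has no
*factor of degree `k`*: there is no partition of the indices in `[E : ℚ]` classes of `n` elements
which are stable under `a`, with a set of `k` elements of one class which is stable under `a`.  Let `μ`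
be a lower bound for the orders of the subgroups of `A` which contain
conjugates of all the given types; for example the least common multiple of the orders of the types.
Then the set of the prime numbers `ℓ` such that for all places `λ` above `ℓ` the representation `V_λ` is
absolutely irreducible, also for all subgroups of finite index, and the only endomorphisms of `V_ℓ`
which commute with a subgroup of finite index are the elements of `E ⊗ ℚ_ℓ`, has lower natural density
at least `μ / |A|`.  Moreover there is a monic polynomial `f` with integral coefficients such that
almost all (in the sense of density) prime numbers `ℓ` modulo which `f` splits are in this set.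

If `τ` induces the Frobenius automorphism of the residue field and `P v` is the norm of the Hecke
polynomial `Q`, of good reduction at `p` and separable modulo `p`, then the cycles of the type of the
Frobenius element at `v` correspond to the irreducible factors over `ℚ_p` of the images of `Q` under the
embeddings of `E`, and the condition is satisfied for `k` if none of these images has a factor of degree
`k` (and no other distribution of the cycles gives one).  So the condition is the usual criterion for
irreducibility by the degrees of the factors of Hecke polynomials.  But the degrees may come from
*different* primes `p`: for none of these primes `p` need they imply that `V_p` is irreducible; and the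
conclusion is about other primes `ℓ`, at least the proportion `μ / |A|` of all primes, which depends
only on the types and on `A`.

Another example is `E = ℚ` and the tensor product of two representations of dimension `d`: here
`A` contains the group `W`, the product of two symmetric groups of degree `d`, with index two, and if all
elements of `W` are types at one prime `p` then the groups `H` contain `W`, by Jordan's theorem. So one
has irreducibility for at least half of all primes `ℓ` (the exchange of the factors is not central in
`A`, and the known criteria for `100` percent of the primes do not apply).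

For the proof let `ℓ` be a prime number outside of a set of density zero which splits in the
intersection of the splitting fields of the `P v`, for all good places `v`.  By the library
`Pool.Agent.N144.SP` there is a place `v` with the Frobenius eigenvectors `e_1, ..., e_N` of `V_ℓ` over
the algebraic closure of `ℚ_ℓ`, and a group `H` of permutations with conjugates of all types, such that
for every stable subspace `U` the set of the `i` with `e_i` in `U` is stable under `H`.  The
eigenvectors are distributed on the `[E : ℚ]` parts, with `n` of them in every part (by the independence
of the embeddings, from the traces of `E`); so `H` preserves these blocks of `n` elements.  An orbit of `H`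
in a block with `k < n` elements would give a factor of degree `k` of every type.  So `H` is transitive on
the blocks.
-/

set_option autoImplicit false

namespace Pool.Agent.Results.MP_fa5bba_nt.FactorDegreesProportion

open NumberField IsDedekindDomain Polynomial Module Pool.Agent.Y114.TF Pool.Agent.Y114.GF
  Pool.Agent.Y114.MU Pool.Agent.Y114.RM Pool.Agent.R931.GD Pool.Agent.R931.ZL Pool.Agent.R931.ZM
  Pool.Agent.R931.PD Pool.Agent.R931.ZF Pool.Agent.N144.SP Pool.Agent.U465.BK

/-- The degrees of factors at several primes imply the irreducibility at a positive proportion of
the primes. -/
theorem result (K : Type) [Field K] [NumberField K] (Γ : Type) [Group Γ] [TopologicalSpace Γ]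
    [IsTopologicalGroup Γ] [CompactSpace Γ] (s : Gal(AlgebraicClosure K/K) →* Γ)
    (hs : Continuous s)
    -- the `ℓ`-adic representations
    (N : ℕ) (hN : 0 < N)
    (ρ : ∀ (ℓ : ℕ) [Fact ℓ.Prime], Rep1 Γ N ℓ) (hρ : ∀ (ℓ : ℕ) [Fact ℓ.Prime], Conts (ρ ℓ))
    -- the coefficients
    (E : Type) [Field E] [NumberField E] (n : ℕ) (hn : 0 < n)
    (ε : ∀ (ℓ : ℕ) [Fact ℓ.Prime], E →+* End ℚ_[ℓ] (Fin N → ℚ_[ℓ]))
    (hε : ∀ (ℓ : ℕ) [Fact ℓ.Prime], ActsFreely n (ρ ℓ) (ε ℓ))
    -- the Frobenius polynomials outside of a finite set of places
    (wt : ℤ) (c : ℕ) (S : Set (HeightOneSpectrum (𝓞 K))) (hS : S.Finite)
    (P : HeightOneSpectrum (𝓞 K) → ℚ[X])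
    (hP : ∀ (ℓ : ℕ) [Fact ℓ.Prime], ∀ v ∉ S, ¬ Above v ℓ →
      GoodReduction (restrictTo (ρ ℓ) s) () wt v (P v))
    (hint : ∀ v ∉ S, IntegralAt c v (P v))
    -- at most `r` independent eigenvalues
    (r : ℕ) (hrank : ∀ v ∉ S, ¬ IndepRoots (r + 1) {P v})
    -- the relations, and their automorphism group
    (R : Set (Fin N → ℤ)) (hR : RankGE r R)
    -- the types at some prime numbers
    (J : Type) [Nonempty J] (T : J → Set (Equiv.Perm (Fin N))) (hone : ∀ j, 1 ∈ T j)
    (p : J → ℕ) [∀ j, Fact (p j).Prime] (τ : ∀ j, Gal(PadicAlgCl (p j)/ℚ_[p j]))
    (htypes : ∀ j, ∀ a ∈ T j, TypeOccurs s (ρ (p j)) R (τ j) a)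
    -- the subgroups with conjugates of all types are transitive on their blocks of `n` elements;
    -- or (this is sufficient) for every degree less than `n` some type has no factor of this degree
    (hgrp : (∀ H : Subgroup (Equiv.Perm (Fin N)), ConjIn (relAut R) (⋃ j, T j) H →
        TransitiveOnBlocks (finrank ℚ E) n H) ∨
      ∀ k, 0 < k → k < n → ∃ a ∈ ⋃ j, T j, ¬ StableInBlock (finrank ℚ E) n a k)
    -- a lower bound for the orders of the subgroups with conjugates of all types
    (μ : ℕ) (hμ : ∀ M : Subgroup (Equiv.Perm (Fin N)), ConjIn (relAut R) (⋃ j, T j) M →
      μ ≤ Nat.card M) :
    LowerDensityGE {ℓ | ∃ _ : Fact ℓ.Prime, IrreducibleAt ρ ε ℓ}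
      ((μ : ℝ) / (Nat.card (relAut R) : ℝ)) ∧
    ∃ f : ℤ[X], f.Monic ∧ HasDensityZero {ℓ | ∃ _ : Fact ℓ.Prime,
      (f.map (Int.castRingHom (ZMod ℓ))).Splits ∧ ¬ IrreducibleAt ρ ε ℓ} := by
  obtain ⟨j₀⟩ := ‹Nonempty J›
  have h := law_blocks (K := K) (Γ := Γ) (s := s) (N := N) (wt := wt) (c := c) (r := r) (S := S)
    (P := P) (ρ := ρ) (E := E) ⟨hN, hs, hρ, hS, hP, hint, fun v hv => hrank v hv.1⟩ R hR T
    ⟨j₀, 1, hone j₀⟩ p τ htypes n hn ε hε
  have hb : ∀ H : Subgroup (Equiv.Perm (Fin N)), ConjIn (relAut R) (⋃ j, T j) H →
      TransitiveOnBlocks (finrank ℚ E) n H := by
    rcases hgrp with hgrp | hdeg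
    · exact hgrp
    · exact fun H hH => blocks_of_degrees hdeg hH
  exact ⟨h.1 _ (forcesProportion_of_conj hone hb hμ), h.2 (forcesSplit_of_conj hone hb)⟩

end Pool.Agent.Results.MP_fa5bba_nt.FactorDegreesProportion
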