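import Pool.Agent.U849.PJ.Main

/-!
# Irreducibility if the quotients of the Satake parameters are often roots of unity

Let `F` be a number field, `π` a cuspidal automorphic representation of `GL_n` over `F` and `ρ` **any** continuous
semisimple representation of `Gal(F)` over the algebraic closure of `ℚ_ℓ` attached to `π`. (Nothing is assumed about the
ramification of `ρ`, which may be ramified at infinitely many places.)

**Theorem.** Suppose that the places `v` at which all the quotients of the eigenvalues of Frobenius (the Satake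
parameters of `π_v`) are roots of unity have upper density `> 1 - 1 / n`. Then `ρ` is scalar on an open subgroup, that is,
the image of `ρ` in `PGL_n` is finite. Moreover the mean values of `|a v| ^ 2`, `a v` the trace of the Satake parameter of the
unitary twist of `π`, over the places `v ∉ E` (`E` any set of density zero) converge to the dimension of the algebra of the
matrices which commute with `ρ`, and `ρ` is irreducible if and only if their lower limit is less than `2`.

For cuspidal `π` the upper limit is at most `1` (Jacquet-Shalika, Shahidi: `L(s, π × π~)` has a simple pole at `s = 1` and no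
zeros on `Re s = 1`), so that `ρ` **is irreducible**. There are no assumptions on the integrality or on the size of the
Hecke eigenvalues or of their conjugates, on infinity types, on self-duality, or on the roots of unity (whose orders may
depend on `v`). For prime `n` the bound `1 - 1 / n` is the best possible: if `ρ` is induced from a character of a cyclic
extension of degree `n`, the quotients are roots of unity at a set of places of density at least `1 - 1 / n`.

Proof. Let `G` be the compact group of the pairs `(g, z)`, `g ∈ Gal(F)`, `z ^ n = det ρ(g)`, and `σ(g, z) = z⁻¹ ρ(g)`. By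
Chebotarev's theorem the elements of `G` at which the eigenvalues of `σ` are roots of unity, which form a closed set, have
Haar measure `> 1 - 1 / n`, and so the traces of `σ` are locally constant (`Pool.Agent.U849.SS`). So all the eigenvalues
of `ρ(u)` agree for `u` in an open subgroup `U`; they are given by a character of a smaller `U`, and Burnside's theorem and
semisimplicity show that `U` acts by scalars. The last assertions follow from Chebotarev's theorem and the orthogonality
relations for the adjoint representation.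
-/

set_option autoImplicit false

namespace Pool.Agent.Results.MP_fa5bba_nt.FiniteOrderRatios

open NumberField IsDedekindDomain Filter Topology Pool.Agent.U849.DG

variable {F : Type} [Field F] [NumberField F] {n : ℕ}

/-- All quotients of eigenvalues of `ρ` at the geometric Frobenius elements `σ` at the places above `v` are roots of
unity: a power of `ρ σ` has a single eigenvalue. -/
def RatiosOfFiniteOrderAt {k : Type} [Field k] (ρ : Gam F →* GL (Fin n) k) (v : HeightOneSpectrum (𝓞 F)) : Prop :=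
  ∀ P : Ideal (ZBar F), Above v P → ∀ σ : Gam F, IsGeomFrob v P σ → ∃ m : ℕ, 0 < m ∧ ∃ c : k,
    IsNilpotent ((ρ σ : Matrix (Fin n) (Fin n) k) ^ m - c • (1 : Matrix (Fin n) (Fin n) k))

/-- The set of the places `v` as in the last definition has upper density `> 1 - 1 / n`. -/
def OftenOfFiniteOrder {k : Type} [Field k] (ρ : Gam F →* GL (Fin n) k) : Prop :=
  ∃ θ : ℝ, θ * n < 1 ∧ ∃ᶠ x : ℕ in atTop, ({v : HeightOneSpectrum (𝓞 F) | Ideal.absNorm v.asIdeal ≤ x ∧
    ¬ RatiosOfFiniteOrderAt ρ v}.ncard : ℝ) ≤ θ * Nat.primeCounting x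

/-- `|a v| ^ 2` is the product of the traces of `ρ` at `σ` and `σ⁻¹`, for the geometric Frobenius elements `σ` at the
places above `v ∉ E`. -/
def HasNorms {k : Type} [Field k] (ι : k →+* ℂ) (ρ : Gam F →* GL (Fin n) k) (E : Set (HeightOneSpectrum (𝓞 F)))
    (a : HeightOneSpectrum (𝓞 F) → ℂ) : Prop :=
  ∀ v, v ∉ E → ∀ P : Ideal (ZBar F), Above v P → ∀ σ : Gam F, IsGeomFrob v P σ →
    ι ((ρ σ : Matrix (Fin n) (Fin n) k).trace * (ρ σ⁻¹ : Matrix (Fin n) (Fin n) k).trace) = (‖a v‖ ^ 2 : ℝ)

/-- The sum of the `|a v| ^ 2` over the places `v ∉ E` with `N(v) ≤ x`, divided by the number of rational primes up to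
`x`. -/
noncomputable def meanSquare (E : Set (HeightOneSpectrum (𝓞 F))) (a : HeightOneSpectrum (𝓞 F) → ℂ) (x : ℕ) : ℝ :=
  (∑ᶠ v ∈ {v : HeightOneSpectrum (𝓞 F) | Ideal.absNorm v.asIdeal ≤ x ∧ v ∉ E}, ‖a v‖ ^ 2) / Nat.primeCounting x

/-- `ρ` is irreducible. -/
def IsIrreducible {k : Type} [Field k] (ρ : Gam F →* GL (Fin n) k) : Prop :=
  0 < n ∧ ∀ W : Submodule k (Fin n → k),
    (∀ g, ∀ x ∈ W, (ρ g : Matrix (Fin n) (Fin n) k).mulVec x ∈ W) → W = ⊥ ∨ W = ⊤

/-- The algebra (as a vector space) of the matrices which commute with `ρ`. -/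
def commutant {k : Type} [Field k] (ρ : Gam F →* GL (Fin n) k) : Submodule k (Matrix (Fin n) (Fin n) k) where
  carrier := {M | ∀ g, M * (ρ g : Matrix (Fin n) (Fin n) k) = (ρ g : Matrix (Fin n) (Fin n) k) * M}
  add_mem' := fun {a b} ha hb g => by rw [add_mul, mul_add, ha g, hb g]
  zero_mem' := fun g => by rw [zero_mul, mul_zero]
  smul_mem' := fun c a ha g => by rw [smul_mul_assoc, mul_smul_comm, ha g]

theorem ratios_inv {k : Type} [Field k] (hn : 0 < n) {A : GL (Fin n) k} {m : ℕ} {c : k}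
    (h : IsNilpotent (((A⁻¹ : GL (Fin n) k) : Matrix (Fin n) (Fin n) k) ^ m - c • (1 : Matrix (Fin n) (Fin n) k))) :
    IsNilpotent ((A : Matrix (Fin n) (Fin n) k) ^ m - c⁻¹ • (1 : Matrix (Fin n) (Fin n) k)) := by
  have hne : Nonempty (Fin n) := ⟨⟨0, hn⟩⟩
  set B : Matrix (Fin n) (Fin n) k := (((A ^ m)⁻¹ : GL (Fin n) k) : Matrix (Fin n) (Fin n) k) with hB
  set C : Matrix (Fin n) (Fin n) k := ((A ^ m : GL (Fin n) k) : Matrix (Fin n) (Fin n) k) with hC
  have hCB : C * B = 1 := Units.mul_inv _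
  have hBC : B * C = 1 := Units.inv_mul _
  have h1 : ((A⁻¹ : GL (Fin n) k) : Matrix (Fin n) (Fin n) k) ^ m = B := by
    rw [hB, ← inv_pow, Units.val_pow_eq_pow_val]
  have h2 : (A : Matrix (Fin n) (Fin n) k) ^ m = C := by rw [hC, Units.val_pow_eq_pow_val]
  rw [h1] at h
  rw [h2]
  have hc : c ≠ 0 := by
    rintro rfl
    rw [zero_smul, sub_zero] at h
    obtain ⟨N, hN⟩ := h
    have hu : IsUnit (B ^ N) := (IsUnit.of_mul_eq_one C hBC).pow N
    rw [hN] at hu
    exact not_isUnit_zero hu
  have h3 : C - c⁻¹ • (1 : Matrix (Fin n) (Fin n) k) = (-c⁻¹) • (C * (B - c • (1 : Matrix (Fin n) (Fin n) k))) := by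
    rw [mul_sub, hCB, mul_smul_comm, mul_one, smul_sub, smul_smul, neg_mul, inv_mul_cancel₀ hc, neg_smul, neg_smul,
      one_smul]
    abel
  have hcomm : Commute C (B - c • (1 : Matrix (Fin n) (Fin n) k)) := by
    change C * (B - c • (1 : Matrix (Fin n) (Fin n) k)) = (B - c • (1 : Matrix (Fin n) (Fin n) k)) * C
    rw [mul_sub, sub_mul, hCB, hBC, mul_smul_comm, smul_mul_assoc, mul_one, one_mul]
  rw [h3]
  exact (hcomm.isNilpotent_mul_left h).smul _

/-- **Quotients of Satake parameters which are roots of unity: finite projective image and irreducibility.** -/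
theorem result (hn : 0 < n) (ℓ : ℕ) [Fact ℓ.Prime] (ι : PadicAlgCl ℓ →+* ℂ)
    (ρ : Gam F →* GL (Fin n) (PadicAlgCl ℓ)) (hρ : Continuous ρ) (hss : Semisimple ρ)
    (hfin : OftenOfFiniteOrder ρ) :
    (∃ U : Subgroup (Gam F), U.Normal ∧ IsOpen (U : Set (Gam F)) ∧ ∀ u ∈ U, ∃ c : PadicAlgCl ℓ,
      (ρ u : Matrix (Fin n) (Fin n) (PadicAlgCl ℓ)) = c • (1 : Matrix (Fin n) (Fin n) (PadicAlgCl ℓ))) ∧
    ∀ E : Set (HeightOneSpectrum (𝓞 F)), DensityZero E → ∀ a : HeightOneSpectrum (𝓞 F) → ℂ, HasNorms ι ρ E a →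
      Tendsto (meanSquare E a) atTop (𝓝 (Module.finrank (PadicAlgCl ℓ) (commutant ρ) : ℝ)) ∧
      (IsIrreducible ρ ↔ ∃ c < (2 : ℝ), ∃ᶠ x : ℕ in atTop, meanSquare E a x ≤ c) := by
  classical
  have hnz : NeZero n := ⟨hn.ne'⟩
  obtain ⟨θ, hθ, hfr⟩ := hfin
  have hθ0 : 0 ≤ θ := by
    obtain ⟨x, hx, hx0⟩ := (hfr.and_eventually (Nat.tendsto_primeCounting.eventually_gt_atTop 0)).exists
    have h1 : (0 : ℝ) < Nat.primeCounting x := by exact_mod_cast hx0
    by_contra hneg
    have h2 : θ * Nat.primeCounting x < 0 := mul_neg_of_neg_of_pos (not_le.1 hneg) h1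
    have h3 : (0 : ℝ) ≤ ({v : HeightOneSpectrum (𝓞 F) | Ideal.absNorm v.asIdeal ≤ x ∧
      ¬ RatiosOfFiniteOrderAt ρ v}.ncard : ℝ) := Nat.cast_nonneg _
    linarith
  have hdens : ∃ᶠ x : ℕ in atTop, Pool.Agent.W401.Cheb.dens (fun v : HeightOneSpectrum (𝓞 F) =>
      ∃ g, Pool.Agent.W401.Cheb.IsFrob v g ∧ ∀ k : ℕ, 0 < k → ∀ c : PadicAlgCl ℓ,
        ¬ IsNilpotent (((ρ g : GL (Fin n) (PadicAlgCl ℓ)) : Matrix (Fin n) (Fin n) (PadicAlgCl ℓ)) ^ k -
          c • (1 : Matrix (Fin n) (Fin n) (PadicAlgCl ℓ)))) x ≤ θ := by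
    refine (hfr.and_eventually (Nat.tendsto_primeCounting.eventually_gt_atTop 0)).mono ?_
    rintro N ⟨h1, h3⟩
    have h4 : (0 : ℝ) < (Nat.primeCounting N : ℝ) := by exact_mod_cast h3
    have h5 : Pool.Agent.W401.Cheb.dens (fun v : HeightOneSpectrum (𝓞 F) =>
        ¬ RatiosOfFiniteOrderAt ρ v) N ≤ θ := by
      unfold Pool.Agent.W401.Cheb.dens
      rw [div_le_iff₀ h4]
      exact h1
    refine le_trans (Pool.Agent.R401.Eng.dens_le ?_ N) h5
    rintro v ⟨g, ⟨Q, hQ, hQv, hg⟩, hk⟩ hfo
    obtain ⟨m, hm, c, hc⟩ := hfo Q ⟨hQ, hQv⟩ g⁻¹ (geom_of_arith hg)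
    rw [map_inv] at hc
    exact hk m hm c⁻¹ (ratios_inv hn hc)
  obtain ⟨U, hUn, hUo, hU⟩ := Pool.Agent.U849.PJ.scalar_main ρ hρ hss θ hθ0 hθ hdens
  refine ⟨⟨U, hUn, hUo, hU⟩, fun E hE a ha => ?_⟩
  have hlim : Tendsto (meanSquare E a) atTop
      (𝓝 (Module.finrank (PadicAlgCl ℓ) (Pool.Agent.U849.IR.commutant ρ) : ℝ)) :=
    Pool.Agent.U849.PJ.limit_proj ι ρ U hUo hU hE (b := fun v => ‖a v‖ ^ 2) (fun v hv P hP g hg => by
      have h1 := ha v hv P hP g⁻¹ (geom_of_arith hg)
      rw [inv_inv] at h1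
      exact h1)
  refine ⟨hlim, ?_, ?_⟩
  · intro h
    have h1 : Module.finrank (PadicAlgCl ℓ) (Pool.Agent.U849.IR.commutant ρ) = 1 :=
      Pool.Agent.U849.IR.finrank_of_irr h
    refine ⟨3 / 2, by norm_num, ?_⟩
    rw [h1, Nat.cast_one] at hlim
    exact (hlim.eventually_le_const (by norm_num)).frequently
  · rintro ⟨c, hc, hfr⟩
    have h1 : (Module.finrank (PadicAlgCl ℓ) (Pool.Agent.U849.IR.commutant ρ) : ℝ) ≤ c :=
      le_of_tendsto_of_frequently hlim hfr
    have h2 : Module.finrank (PadicAlgCl ℓ) (Pool.Agent.U849.IR.commutant ρ) < 2 := by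
      have h3 : (Module.finrank (PadicAlgCl ℓ) (Pool.Agent.U849.IR.commutant ρ) : ℝ) < 2 := by linarith
      exact_mod_cast h3
    exact Pool.Agent.U849.IR.irr_of_finrank hn hss h2

end Pool.Agent.Results.MP_fa5bba_nt.FiniteOrderRatios
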