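import Mathlib
import Pool.Agent.U465.BK.Final

/-!
# Irreducibility at 100 percent of the primes for self-dual systems of maximal rank

Let `π` be an algebraic cuspidal automorphic representation of `GL_N` over a number field `K` (for
example `ℚ`) whose Hecke polynomials have rational coefficients, with the attached representations
`V_ℓ` of the Galois group of `K` over `ℚ_ℓ` (more generally the theorem is about representations of a
compact group `Γ` with a homomorphism from the Galois group).  As in the other files of this folder we
assume purity (the Ramanujan conjecture) and integrality of the Frobenius eigenvalues; these are known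
if `π` is regular and essentially self-dual, and for all motives.  Then the Frobenius polynomials are
self-reciprocal: with `z` also `(q v) ^ wt / z` is an eigenvalue.  So there are at most `N / 2 + 1`
multiplicatively independent eigenvalues (`not_indep`), and if there are so many, the only relations are
those which follow from the equality of the products of the eigenvalues of a pair `z`, `(q v) ^ wt / z`.
This is the case if the identity component of the monodromy group is `GSp_N`, or `GSO_N` for even `N`, but
also for the similitude groups which belong to products of several such groups, for which `V_ℓ` is
reducible.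

Let `ι` be an involution of `{1, ..., N}` without fixed points.  An element `γ` of the image of the
Galois group at a prime `p` has the *type* `a` (with respect to `p` and to an automorphism `τ` of the
algebraic closure of `ℚ_p`) if the eigenvalues of `ρ_p(γ)` can be written as `z_1, ..., z_N` such that
`τ (z_i) = z_{a(i)}` and such that the relations between them (the integer vectors `m` for which the
product of the `z_i ^ {m_i}` is a root of unity) are exactly the vectors with `m_{ι(i)} = m_i` and sum
zero.  In the same way we define the types of the elements of the Lie algebra of the image.  The types
are elements of the centralizer `C` of `ι`, the Weyl group of `Sp_N`.  The *sign changes* are the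
elements which preserve all pairs `{i, ι(i)}`; the quotient of `C` by the group of the sign changes is the
symmetric group of the pairs.

**Theorem.**  Let `T j` (for `j` in any index set) be sets of types which occur at primes `p j` for
automorphisms `τ j`.  Suppose that the types induce permutations of the pairs which generate the
symmetric group of the pairs invariably (`C` is the only subgroup of `C` which contains all sign changes
and conjugates of all types), that every `T j` contains a sign change (possibly `1`), and that for one `j`
there are two different sign changes which are conjugate in `C` to elements of `T j` (for example if `T j`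
contains two sign changes, or one which is not central, i.e. different from `1` and `ι`).  Then for all
prime numbers `ℓ` outside of a set of natural density zero, `V_ℓ` is absolutely irreducible, also for all
subgroups of finite index.

For example, suppose that `wt` is not zero, `N ≥ 4` is even and for one prime number `p` the image of
the Galois group is open in the group of the similitudes `GSO_N(ℚ_p)` of an unramified quadratic form,
split or not split.  Then the types for a Frobenius automorphism `τ` are all elements of the Weyl group
`W` of `SO_N`, or (if the form is not split) of the other coset of `W` in `C`, and the conditions are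
satisfied.  In the split case, for `N = 2 n` with `n` odd, the group `C` is the product of `W` and of the
central subgroup generated by `-1`, and the criterion `orbitBound_of_central` of the starting library
applies (see `ZeroOneIrreducibility`); if `n` is even, `W` contains `-1`, `C` is not such a product, and
the known criteria do not apply; nor in the case which is not split, where `1` is not a type.
In general the types need not generate `C`, up to central elements; sign changes and elements with
prescribed action on the pairs, whatever the signs are, and possibly from several primes, are enough.
Note that `V_ℓ` could be a sum of representations with smaller orthogonal or symplectic monodromy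
groups for which the multiplicative relations are the same.

The proof uses the library `Pool.Agent.R931.ZF`: outside of a set of density zero there are eigenvectors
`e_1, ..., e_N` of a Frobenius element, a group `H` of permutations in `C` such that the sets of the `i` with
`e_i` in a stable subspace are stable under `H`, and an element `y` of `C` which normalizes `H`, such that
`H * y` contains conjugates of all elements of a coset `M * g`; here `M ≤ G` are Galois groups of a
Frobenius polynomial, `g` is in `G`, and cosets `M * x_j` contain conjugates of all elements of `T j`.  Let
`S` be the group of the sign changes.  We show that `H` is transitive (`orbitBound_pair`).  By assumption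
`x_j` is in `M S`, so `M S = C`, and it follows by Jordan's theorem that `H S = C`.  Since `S` is abelian and
`M S = C`, the set of the sign changes in `M * x_j` is stable under conjugation by `C` (`coset_conj`); so
it contains two elements, and `M ∩ S` is not trivial.  Therefore `M * g` contains two different sign
changes, the same is true for `H * y`, and `H ∩ S` is not trivial.  So `H` contains an element which
exchanges the elements of a pair, and it is transitive on the pairs.
-/

set_option autoImplicit false

namespace Pool.Agent.Results.MP_fa5bba_nt.MaximalRankSelfDual

open NumberField IsDedekindDomain Polynomial Module Pool.Agent.Y114.TF Pool.Agent.Y114.GF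
  Pool.Agent.Y114.MU Pool.Agent.Y114.RM Pool.Agent.R931.GD Pool.Agent.R931.ZL Pool.Agent.R931.ZM
  Pool.Agent.R931.ZF Pool.Agent.U465.BK

/-- Self-dual systems of maximal rank are absolutely irreducible at 100 percent of the primes. -/
theorem result (K : Type) [Field K] [NumberField K] (Γ : Type) [Group Γ] [TopologicalSpace Γ]
    [IsTopologicalGroup Γ] [CompactSpace Γ] (s : Gal(AlgebraicClosure K/K) →* Γ)
    (hs : Continuous s)
    -- the `ℓ`-adic representations
    (N : ℕ) (hN : 0 < N)
    (ρ : ∀ (ℓ : ℕ) [Fact ℓ.Prime], Rep1 Γ N ℓ) (hρ : ∀ (ℓ : ℕ) [Fact ℓ.Prime], Conts (ρ ℓ))
    -- the Frobenius polynomials outside of a finite set of places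
    (wt : ℤ) (c : ℕ) (S : Set (HeightOneSpectrum (𝓞 K))) (hS : S.Finite)
    (P : HeightOneSpectrum (𝓞 K) → ℚ[X])
    (hP : ∀ (ℓ : ℕ) [Fact ℓ.Prime], ∀ v ∉ S, ¬ Above v ℓ →
      GoodReduction (restrictTo (ρ ℓ) s) () wt v (P v))
    (hint : ∀ v ∉ S, IntegralAt c v (P v))
    -- the pairs
    (ι : Equiv.Perm (Fin N)) (hι : ∀ i, ι (ι i) = i) (hι' : ∀ i, ι i ≠ i)
    -- the types at some prime numbers
    (J : Type) (T : J → Set (Equiv.Perm (Fin N)))
    (p : J → ℕ) [∀ j, Fact (p j).Prime] (τ : ∀ j, Gal(PadicAlgCl (p j)/ℚ_[p j]))
    (htypes : ∀ j, ∀ a ∈ T j, TypeOccurs s (ρ (p j)) (pairRelations ι) (τ j) a)
    -- they generate the symmetric group of the pairs invariably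
    (hgen : ∀ L : Subgroup (Equiv.Perm (Fin N)), L ≤ Subgroup.centralizer {ι} →
      (∀ k : Equiv.Perm (Fin N), (∀ i, k i = i ∨ k i = ι i) → k ∈ L) →
      (∀ a ∈ ⋃ j, T j, ∃ x ∈ Subgroup.centralizer {ι}, x⁻¹ * a * x ∈ L) →
      L = Subgroup.centralizer {ι})
    -- every `T j` contains a sign change, and two of them are conjugate to elements of one `T j`
    (hsign : ∀ j, (signTypes ι (T j)).Nonempty)
    (htwo : ∃ j, (signTypes ι (T j)).Nontrivial) :
    HasDensityZero {ℓ | ∃ _ : Fact ℓ.Prime, ¬ StronglyIrreducible (ρ ℓ) ⊤} := by
  obtain ⟨j₀, k₀, ⟨-, a₀, ha₀, -⟩, -⟩ := id htwo
  have hset : SetupG K Γ s N wt c (N / 2 + 1) S P ρ := by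
    refine ⟨hN, hs, hρ, hS, hP, hint, fun v hv => ?_⟩
    have h1 := monic_pure (S := S) hs hρ hP hv.1
    exact not_indep h1.1.ne_zero h1.2.1 (q_pos v wt) h1.2.2
  have hmain := main_coef (E := ℚ) hset (pairRelations ι) (rankGE_pair hN hι hι') T
    ⟨j₀, a₀, ha₀⟩ p τ htypes N hN (fun ℓ _ => ratAct N ℓ) (fun ℓ _ => actsFreely_rat ℓ (ρ ℓ))
    (by
      rw [Module.finrank_self]
      exact orbitBound_pair hι hι' hsign htwo hgen)
  refine Pool.Agent.Y142.ZI.DensityZero.mono hmain ?_
  rintro ℓ ⟨hp, hno⟩
  refine ⟨hp, fun h => hno ?_⟩
  have h1 := h.1 (algebraMap ℚ (PadicAlgCl ℓ))
  rwa [partAt_rat] at h1

end Pool.Agent.Results.MP_fa5bba_nt.MaximalRankSelfDual
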