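import Pool.Agent.U849.IR.Main

/-!
# The representations attached to automorphic representations of weight zero are irreducible

Let `π` be an algebraic cuspidal automorphic representation of `GL_n` over a number field `F` (for example `ℚ`) whose
exponents `p_i`, `q_i` are all zero, the case farthest from the regular one, and whose Hecke eigenvalues `t v` (the sums
of the Satake parameters in Clozel's normalisation) are integers of a number field `K ⊆ ℂ`. Let `ρ` be *any* continuous
semisimple `ℓ`-adic representation attached to `π` outside a set `E` of primes of density zero; all that we use is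
that the trace of `ρ` at the geometric Frobenius elements at `v ∉ E` is `t v` (transported by `ι`).

**Theorem.** Suppose that the mean values of `|σ (t v)| ^ 2` over the primes `v ∉ E` with `N(v) ≤ x` are bounded, for
arbitrarily large `x`, simultaneously for all embeddings `σ` of `K` (for instance if the conjugates of `π` are cuspidal
automorphic, or tempered). Then `ρ` has finite image; the mean values of `|t v| ^ 2` converge to the dimension of the
algebra of the matrices which commute with `ρ`; and `ρ` is irreducible if and only if their lower limit is less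
than `2`.

For cuspidal `π` this limit is `1`: as `L(s, π × π~)` has a simple pole at `s = 1` and no zeros on `Re s = 1`
(Jacquet-Shalika, Shahidi), the mean values of `|t v| ^ 2` have upper limit at most `1`. So `ρ` **is irreducible**, and
there are no assumptions beyond integrality if `K = ℚ` or `K` is imaginary quadratic, as then there is only one embedding
up to complex conjugation (part 2 of the theorem). In general, the number of the irreducible constituents of `ρ` can
be read off from the order of the pole.

There is no assumption of purity at single primes, regularity, self-duality, of Hodge-Tate type, no restriction on `n`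
or `ℓ`, and nothing at all is assumed at the primes of `E` (at which `ρ` may be ramified).

Proof. The traces at all primes outside a set of small lower density belong to a finite set, so the image is finite, as
in the theorem of Deligne and Serre (`Pool.Agent.U849.DG`, after the starting files `R401`, `U175`). By
Chebotarev's theorem over `F` (starting files) the mean values of `|t v| ^ 2` converge to the mean of `|χ| ^ 2`, `χ` the
character of the finite group, which is the dimension of the commutant by the orthogonality relations.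
-/

set_option autoImplicit false

namespace Pool.Agent.Results.MP_fa5bba_nt.WeightZeroIrreducible

open NumberField IsDedekindDomain Filter Topology Pool.Agent.U849.DG

variable {F : Type} [Field F] [NumberField F] {K : Type} [Field K] [NumberField K] {n : ℕ}

/-- The sum of the `|a v| ^ 2` over the primes `v ∉ E` with `N(v) ≤ x`, divided by the number of rational primes up to
`x`. -/
noncomputable def meanSquare (E : Set (HeightOneSpectrum (𝓞 F))) (a : HeightOneSpectrum (𝓞 F) → ℂ) (x : ℕ) : ℝ :=
  (∑ᶠ v ∈ {v : HeightOneSpectrum (𝓞 F) | Ideal.absNorm v.asIdeal ≤ x ∧ v ∉ E}, ‖a v‖ ^ 2) / Nat.primeCounting x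

/-- The mean squares of the conjugates of the numbers `t v` are bounded, for arbitrarily large `x`, simultaneously for all
the embeddings of `K`. -/
def Bounded (E : Set (HeightOneSpectrum (𝓞 F))) (t : HeightOneSpectrum (𝓞 F) → 𝓞 K) : Prop :=
  ∃ C : ℝ, ∃ᶠ x : ℕ in atTop, ∀ σ : K →+* ℂ, meanSquare E (fun v => σ (t v)) x ≤ C

/-- The traces of `ρ` at the geometric Frobenius elements at the primes `v ∉ E` are the numbers `a v`. -/
def HasTraces {k : Type} [Field k] (ρ : Gam F →* GL (Fin n) k) (E : Set (HeightOneSpectrum (𝓞 F)))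
    (a : HeightOneSpectrum (𝓞 F) → k) : Prop :=
  ∀ v, v ∉ E → ∀ P : Ideal (ZBar F), Above v P → ∀ σ : Gam F, IsGeomFrob v P σ →
    (ρ σ : Matrix (Fin n) (Fin n) k).trace = a v

/-- `ρ` is irreducible. -/
def IsIrreducible {k : Type} [Field k] (ρ : Gam F →* GL (Fin n) k) : Prop :=
  0 < n ∧ ∀ W : Submodule k (Fin n → k),
    (∀ g, ∀ x ∈ W, (ρ g : Matrix (Fin n) (Fin n) k).mulVec x ∈ W) → W = ⊥ ∨ W = ⊤

/-- The algebra (as a vector space) of the matrices which commute with `ρ`. -/
def commutant {k : Type} [Field k] (ρ : Gam F →* GL (Fin n) k) : Submodule k (Matrix (Fin n) (Fin n) k) where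
  carrier := {M | ∀ g, M * (ρ g : Matrix (Fin n) (Fin n) k) = (ρ g : Matrix (Fin n) (Fin n) k) * M}
  add_mem' := fun {a b} ha hb g => by rw [add_mul, mul_add, ha g, hb g]
  zero_mem' := fun g => by rw [zero_mul, mul_zero]
  smul_mem' := fun c a ha g => by rw [smul_mul_assoc, mul_smul_comm, ha g]

/-- **Irreducibility and finite image in weight zero.** -/
theorem result (hn : 0 < n) (E : Set (HeightOneSpectrum (𝓞 F))) (hE : DensityZero E)
    (t : HeightOneSpectrum (𝓞 F) → 𝓞 K) (σ₀ : K →+* ℂ) (ℓ : ℕ) [Fact ℓ.Prime] (ι : PadicAlgCl ℓ ≃+* ℂ)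
    (ρ : Gam F →* GL (Fin n) (PadicAlgCl ℓ)) (hρ : Continuous ρ) (hss : Semisimple ρ)
    (htr : HasTraces ρ E fun v => ι.symm (σ₀ (t v))) :
    (Bounded E t → IsOpen (ρ.ker : Set (Gam F)) ∧
      Tendsto (meanSquare E fun v => σ₀ (t v)) atTop
        (𝓝 (Module.finrank (PadicAlgCl ℓ) (commutant ρ) : ℝ)) ∧
      (IsIrreducible ρ ↔ ∃ c < (2 : ℝ), ∃ᶠ x : ℕ in atTop, meanSquare E (fun v => σ₀ (t v)) x ≤ c)) ∧
    ((∀ (σ : K →+* ℂ) (y : K), ‖σ y‖ = ‖σ₀ y‖) →
      (∃ c < (2 : ℝ), ∃ᶠ x : ℕ in atTop, meanSquare E (fun v => σ₀ (t v)) x ≤ c) →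
      IsOpen (ρ.ker : Set (Gam F)) ∧ IsIrreducible ρ) := by
  have key : Bounded E t → IsOpen (ρ.ker : Set (Gam F)) ∧
      Tendsto (meanSquare E fun v => σ₀ (t v)) atTop
        (𝓝 (Module.finrank (PadicAlgCl ℓ) (commutant ρ) : ℝ)) ∧
      (IsIrreducible ρ ↔ ∃ c < (2 : ℝ), ∃ᶠ x : ℕ in atTop, meanSquare E (fun v => σ₀ (t v)) x ≤ c) := by
    rintro ⟨C, hC⟩
    have hC' : ∃ᶠ x : ℕ in atTop, ∀ σ : K →+* ℂ,
        ∑ᶠ v ∈ {v : HeightOneSpectrum (𝓞 F) | Ideal.absNorm v.asIdeal ≤ x ∧ v ∉ E}, ‖σ (t v)‖ ^ 2 ≤
          C * Nat.primeCounting x := by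
      refine (hC.and_eventually (Nat.tendsto_primeCounting.eventually_gt_atTop 0)).mono ?_
      rintro x ⟨hx, hx0⟩ σ
      have h1 : (0 : ℝ) < Nat.primeCounting x := by exact_mod_cast hx0
      exact (div_le_iff₀ h1).1 (hx σ)
    have htr' : ∀ v, v ∉ E → ∀ P : Ideal (ZBar F), Above v P → ∀ g,
        Pool.Agent.W569.FM.FrobAt (Ideal.absNorm v.asIdeal) P g →
        (Pool.Agent.R401.Img.mt ρ g⁻¹).trace = ι.symm (σ₀ (t v)) :=
      fun v hv P hP g hg => htr v hv P hP g⁻¹ (geom_of_arith hg)
    have hopen := Pool.Agent.U849.IR.open_of_traces hE t hC'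
      ((ι.symm : ℂ →+* PadicAlgCl ℓ).comp σ₀) ρ hρ hss htr'
    have hlim := Pool.Agent.U849.IR.limit (ι : PadicAlgCl ℓ →+* ℂ) ρ hopen hE
      (a := fun v => σ₀ (t v)) (fun v hv P hP g hg => by
        rw [htr' v hv P hP g hg]
        exact ι.apply_symm_apply _)
    refine ⟨hopen, hlim, ?_, ?_⟩
    · intro h
      have h1 : Module.finrank (PadicAlgCl ℓ) (Pool.Agent.U849.IR.commutant ρ) = 1 :=
        Pool.Agent.U849.IR.finrank_of_irr h
      refine ⟨3 / 2, by norm_num, ?_⟩
      rw [h1, Nat.cast_one] at hlim
      exact (hlim.eventually_le_const (by norm_num)).frequently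
    · rintro ⟨c, hc, hfr⟩
      have h1 : (Module.finrank (PadicAlgCl ℓ) (Pool.Agent.U849.IR.commutant ρ) : ℝ) ≤ c :=
        le_of_tendsto_of_frequently hlim hfr
      have h2 : Module.finrank (PadicAlgCl ℓ) (Pool.Agent.U849.IR.commutant ρ) < 2 := by
        have h3 : (Module.finrank (PadicAlgCl ℓ) (Pool.Agent.U849.IR.commutant ρ) : ℝ) < 2 := by linarith
        exact_mod_cast h3
      exact Pool.Agent.U849.IR.irr_of_finrank hn hss h2
  refine ⟨key, fun hconj hc => ?_⟩
  have hb : Bounded E t := by
    obtain ⟨c, -, hfr⟩ := hc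
    refine ⟨c, hfr.mono fun x hx σ => le_trans (le_of_eq ?_) hx⟩
    unfold meanSquare
    congr 1
    refine finsum_congr fun v => finsum_congr fun _ => ?_
    rw [hconj σ]
  obtain ⟨h1, -, h2⟩ := key hb
  exact ⟨h1, h2.2 hc⟩

end Pool.Agent.Results.MP_fa5bba_nt.WeightZeroIrreducible
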